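import Mathlib
import Pool.Agent.helper60.MW.Spec

set_option autoImplicit false

/-! Row DTR: the densities of a measurable set form a density tree -/

namespace Pool.Agent.MW

open MeasureTheory Set Pool.Agent.helper17.Worm

private lemma DTR_fin {X : Set ℂ} {a w b h : ℝ} (hw : 0 ≤ w) (hh : 0 ≤ h) :
    volume (X ∩ rc a w b h) ≠ ⊤ := by
  refine ne_top_of_le_ne_top ?_ (measure_mono inter_subset_right)
  rw [volume_rc hw hh]
  exact ENNReal.ofReal_ne_top

private lemma DTR_width {X : Set ℂ} (hX : MeasurableSet X) {a w b h : ℝ} (hw : 0 ≤ w)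
    (hh : 0 ≤ h) : volume.real (X ∩ rc a (w + w) b h) =
      volume.real (X ∩ rc a w b h) + volume.real (X ∩ rc (a + w) w b h) := by
  obtain ⟨e, d⟩ := rc_split_width (a := a) (b := b) (h := h) hw hw
  rw [e, inter_union_distrib_left]
  exact measureReal_union (d.mono inter_subset_right inter_subset_right)
    (hX.inter (measurableSet_rc _ _ _ _)) (DTR_fin hw hh) (DTR_fin hw hh)

private lemma DTR_height {X : Set ℂ} (hX : MeasurableSet X) {a w b h : ℝ} (hw : 0 ≤ w)
    (hh : 0 ≤ h) : volume.real (X ∩ rc a w b (h + h)) =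
      volume.real (X ∩ rc a w b h) + volume.real (X ∩ rc a w (b + h) h) := by
  obtain ⟨e, d⟩ := rc_split_height (a := a) (w := w) (b := b) hh hh
  rw [e, inter_union_distrib_left]
  exact measureReal_union (d.mono inter_subset_right inter_subset_right)
    (hX.inter (measurableSet_rc _ _ _ _)) (DTR_fin hw hh) (DTR_fin hw hh)

theorem DTR : DTR_stmt := by
  intro X hX
  refine ⟨?_, ?_, ?_⟩
  · intro L x y
    unfold den
    positivity
  · intro L x y
    unfold den lsq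
    have hp : (0 : ℝ) < 2 ^ L := by positivity
    have h0 : (0 : ℝ) ≤ 1 / 2 ^ L := by positivity
    have h1 : volume.real (X ∩ rc ((x : ℝ) / 2 ^ L) (1 / 2 ^ L) ((y : ℝ) / 2 ^ L) (1 / 2 ^ L)) ≤
        1 / 2 ^ L * (1 / 2 ^ L) := by
      rw [← volume_real_rc (a := (x : ℝ) / 2 ^ L) (b := (y : ℝ) / 2 ^ L) h0 h0]
      refine measureReal_mono inter_subset_right ?_
      rw [volume_rc h0 h0]
      exact ENNReal.ofReal_ne_top
    have h4 : (4 : ℝ) ^ L = 2 ^ L * 2 ^ L := by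
      rw [← mul_pow]
      norm_num
    calc volume.real (X ∩ rc ((x : ℝ) / 2 ^ L) (1 / 2 ^ L) ((y : ℝ) / 2 ^ L) (1 / 2 ^ L)) * 4 ^ L
        ≤ 1 / 2 ^ L * (1 / 2 ^ L) * 4 ^ L := by gcongr
      _ = 1 := by
        rw [h4]
        field_simp
  · intro L x y
    unfold den lsq
    have h0 : (0 : ℝ) ≤ 1 / 2 ^ (L + 1) := by positivity
    have e1 : (1 : ℝ) / 2 ^ L = 1 / 2 ^ (L + 1) + 1 / 2 ^ (L + 1) := by
      rw [pow_succ]
      field_simp
      norm_num
    have e2 : (x : ℝ) / 2 ^ L = ((2 * x : ℤ) : ℝ) / 2 ^ (L + 1) := by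
      rw [pow_succ]
      push_cast
      field_simp
    have e3 : (y : ℝ) / 2 ^ L = ((2 * y : ℤ) : ℝ) / 2 ^ (L + 1) := by
      rw [pow_succ]
      push_cast
      field_simp
    have e4 : ((2 * x : ℤ) : ℝ) / 2 ^ (L + 1) + 1 / 2 ^ (L + 1) =
        ((2 * x + 1 : ℤ) : ℝ) / 2 ^ (L + 1) := by
      push_cast
      ring
    have e5 : ((2 * y : ℤ) : ℝ) / 2 ^ (L + 1) + 1 / 2 ^ (L + 1) =
        ((2 * y + 1 : ℤ) : ℝ) / 2 ^ (L + 1) := by
      push_cast
      ring
    rw [e1, e2, e3, DTR_width hX h0 (add_nonneg h0 h0), DTR_height hX h0 h0, DTR_height hX h0 h0,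
      e4, e5, pow_succ (4 : ℝ) L]
    ring

end Pool.Agent.MW
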